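import Mathlib

set_option autoImplicit false

namespace Pool.Agent.H.MP_ec556a_an

open Set Metric Filter Classical

variable {Y : Type*} [NormedAddCommGroup Y] [NormedSpace ℝ Y]

lemma l1dual {ι : Type} [Fintype ι] (w : ι → StrongDual ℝ Y) {u : ℝ}
    (h : ∀ z : ι → Y, (∀ i, ‖z i‖ < 1) → ∑ i, w i (z i) < u) : ∑ i, ‖w i‖ ≤ u := by
  refine le_of_forall_pos_le_add fun η η0 => ?_
  have N0 : (0 : ℝ) < Fintype.card ι + 1 := by positivity
  have : ∀ i, ∃ z, ‖z‖ < 1 ∧ ‖w i‖ - η / (Fintype.card ι + 1) ≤ w i z := fun i => by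
    obtain ⟨z, a, b⟩ := (w i).exists_lt_apply_of_lt_opNorm (sub_lt_self _ (div_pos η0 N0))
    rcases lt_abs.1 b with b | b
    · exact ⟨z, a, b.le⟩
    · exact ⟨-z, by rwa [norm_neg], by rw [map_neg]; exact b.le⟩
  choose z a b using this
  have := (Finset.sum_le_sum fun i (_ : i ∈ Finset.univ) => b i).trans_lt (h z a)
  rw [Finset.sum_sub_distrib, Finset.sum_const, Finset.card_univ, nsmul_eq_mul] at this
  have : Fintype.card ι * (η / (Fintype.card ι + 1)) ≤ η := by
    rw [← mul_div_assoc, div_le_iff₀ N0]; nlinarith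
  linarith

lemma lr {T : Type} [Fintype T] (x : T → StrongDual ℝ Y) (b : T → StrongDual ℝ Y →ₗ[ℝ] ℝ) {K : ℝ}
    (K0 : 0 ≤ K) (h1 : ∀ t, b t (x t) = 1)
    (h2 : ∀ (a : T → SignType) w, ∑ t, (a t : ℝ) * b t w ≤ K * ‖w‖) :
    ∃ y : T → Y, (∀ a : T → SignType, ‖∑ t, (a t : ℝ) • y t‖ ≤ K + 1) ∧ ∀ t, 1 ≤ x t (y t) := by
  by_contra hc
  set A : (T → Y) →ₗ[ℝ] (T → SignType) → Y :=
    LinearMap.pi fun a => ∑ t, (a t : ℝ) • LinearMap.proj t
  have hA : ∀ y a, A y a = ∑ t, (a t : ℝ) • y t := fun y a => by simp [A]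
  have K1 : 0 < K + 1 := by linarith
  obtain ⟨Ψ, u, p1, p2⟩ := geometric_hahn_banach_open (convex_ball 0 (K + 1)) isOpen_ball
    (Convex.linear_image (s := {y : T → Y | ∀ t, 1 ≤ x t (y t)}) (fun y hy z hz a b a0 b0 ab t => by
      simp only [Pi.add_apply, Pi.smul_apply, map_add, map_smul, smul_eq_mul]
      nlinarith [hy t, hz t]) A) (disjoint_left.2 fun _ h ⟨y, hy, e⟩ => hc ⟨y, fun a => by
        rw [← hA, e]
        exact (norm_le_pi_norm _ a).trans (mem_ball_zero_iff.1 h).le, hy⟩)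
  set w : (T → SignType) → StrongDual ℝ Y := fun a => Ψ.comp (.single ℝ (fun _ => Y) a)
  have hw : ∀ z, Ψ z = ∑ a, w a (z a) := fun z => by
    conv_lhs => rw [← Finset.univ_sum_single z, map_sum]
    rfl
  set ψ : T → StrongDual ℝ Y := fun t => ∑ a : T → SignType, (a t : ℝ) • w a
  have hψ : ∀ y, Ψ (A y) = ∑ t, ψ t (y t) := fun y => by
    simp only [hw, hA, map_sum, map_smul, ψ, _root_.sum_apply, _root_.smul_apply]
    exact Finset.sum_comm
  have h3 : ∑ a, ‖w a‖ ≤ u / (K + 1) := l1dual w fun z hz => by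
    have := p1 ((K + 1) • z) (by
      rw [mem_ball_zero_iff, norm_smul, Real.norm_of_nonneg K1.le]
      exact mul_lt_of_lt_one_right K1 ((pi_norm_lt_iff one_pos).2 hz))
    rwa [map_smul, smul_eq_mul, ← lt_div_iff₀' K1, hw] at this
  have : ∀ t, ∃ e, x t e = 1 := fun t => by
    obtain ⟨e, he⟩ : ∃ e, x t e ≠ 0 := by
      by_contra! h
      simpa [show x t = 0 from ContinuousLinearMap.ext h] using h1 t
    exact ⟨(x t e)⁻¹ • e, by simp [he]⟩
  choose e he using this
  have h4 : ∀ t, ψ t = ψ t (e t) • x t := fun t => ContinuousLinearMap.ext fun y => by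
    have : ∀ s : ℝ, u ≤ Ψ (A e) + s * ψ t (y - x t y • e t) := fun s => by
      have := p2 _ ⟨e + s • (Pi.single t (y - x t y • e t) : T → Y), fun t' => ?_, rfl⟩
      · rwa [map_add, map_add, map_smul, map_smul, hψ (Pi.single _ _), Finset.sum_eq_single t
          (fun t' _ h => by simp [h]) (by simp), Pi.single_eq_same] at this
      · by_cases h : t' = t
        · simp [h, he]
        · simp [h, he]
    have h0 : ψ t (y - x t y • e t) = 0 := by
      by_contra h
      have := this ((u - 1 - Ψ (A e)) / ψ t (y - x t y • e t))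
      rw [div_mul_cancel₀ _ h] at this
      linarith
    rw [map_sub, sub_eq_zero, map_smul] at h0
    simpa [mul_comm] using h0
  have h5 : ∑ t, ψ t (e t) = ∑ a, ∑ t, (a t : ℝ) * b t (w a) := by
    rw [Finset.sum_comm]
    refine Finset.sum_congr rfl fun t _ => ?_
    have := congrArg (b t) (h4 t)
    rw [map_smul, h1, smul_eq_mul, mul_one] at this
    simp only [← this, ψ, map_sum, map_smul, smul_eq_mul]
  have h6 := (p2 _ ⟨e, fun t => (he t).ge, rfl⟩).trans ((hψ e).trans h5).le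
  have h7 := Finset.sum_le_sum fun a (_ : a ∈ Finset.univ) => h2 a (w a)
  have u0 := p1 0 (mem_ball_self K1)
  rw [← Finset.mul_sum] at h7
  rw [le_div_iff₀ K1] at h3
  rw [map_zero] at u0
  nlinarith [Finset.sum_nonneg fun a (_ : a ∈ Finset.univ) => norm_nonneg (w a)]

lemma riesz {ι : Type} [Fintype ι] (v : ι → ℝ) {r : ℝ} (hv : ∀ i, |v i| ≤ r)
    (hr : Fintype.card ι * r ^ 2 ≤ 1) (a : ι → Bool) :
    |(∏ j, (1 + Complex.I * (bif a j then 1 else -1) * v j)).im| ≤ 2 := by
  refine (Complex.abs_im_le_norm _).trans (abs_le_of_sq_le_sq' ?_ two_pos.le).2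
  rw [norm_prod, ← Finset.prod_pow]
  refine (Finset.prod_le_prod (g := fun _ => Real.exp (r ^ 2)) (fun _ _ => sq_nonneg _)
    fun j _ => ?_).trans ?_
  · refine le_trans ?_ (Real.add_one_le_exp _)
    have := sq_le_sq' (abs_le.1 (hv j)).1 (abs_le.1 (hv j)).2
    rw [Complex.sq_norm, Complex.normSq_apply]
    cases a j <;> simp <;> nlinarith
  · rw [Finset.prod_const, ← Real.exp_nat_mul, Finset.card_univ]
    linarith [Real.exp_le_exp.2 hr, Real.exp_one_lt_d9]

lemma riesz' {ι : Type} [Fintype ι] (v : ι → ℝ) (i : ι) :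
    ∑ a : ι → Bool, (bif a i then 1 else -1 : ℝ) *
      (∏ j, (1 + Complex.I * (bif a j then 1 else -1) * v j)).im = 2 ^ Fintype.card ι * v i := by
  have := Finset.prod_univ_sum (fun _ : ι => (Finset.univ : Finset Bool)) fun j b =>
    (if j = i then (bif b then 1 else -1) else 1) * (1 + Complex.I * (bif b then 1 else -1) * v j)
  simp only [Finset.prod_mul_distrib, Finset.prod_ite_eq', Finset.mem_univ, if_true,
    Fintype.piFinset_univ] at this
  rw [Finset.prod_congr rfl (g := fun j => 2 * if j = i then Complex.I * v i else 1)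
    fun j _ => by split_ifs with h <;> simp [h] <;> ring] at this
  simp only [Finset.prod_mul_distrib, Finset.prod_ite_eq', Finset.mem_univ, if_true,
    Finset.prod_const, Finset.card_univ] at this
  have := congrArg Complex.im this
  rw [Complex.im_sum, ← Complex.ofReal_ofNat, ← Complex.ofReal_pow, Complex.im_ofReal_mul] at this
  refine (Finset.sum_congr rfl fun a _ => ?_).trans (this.symm.trans (by simp))
  cases a i <;> simp

lemma abs {U V : Type*} [NormedAddCommGroup U] [NormedSpace ℝ U] [NormedAddCommGroup V]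
    [NormedSpace ℝ V] [TopologicalSpace.SeparableSpace U] (i1 : U →L[ℝ] StrongDual ℝ Y)
    (i2 : V →L[ℝ] StrongDual ℝ Y) {K C R : ℝ} (dec : ∀ w, ‖w‖ ≤ C → ∃ u v, w = i1 u + i2 v ∧ ‖v‖ ≤ R)
    (orl : ∀ (ι : Type) [Fintype ι] (M : ℕ) (ρ : ι → StrongDual ℝ V) (v : ι → V) (K : ℝ),
      Fintype.card ι = M ^ 2 → (∀ a : ι → Bool, ‖∑ i, (bif a i then 1 else -1 : ℝ) • ρ i‖ ≤ K) →
      (∀ i, ‖v i‖ ≤ R) → ∑ i, ρ i (v i) ≤ 2 * M * K * R)
    (y : ∀ n, (Fin n → Bool) → Y)
    (h1 : ∀ n (a : (Fin n → Bool) → SignType), ‖∑ t, (a t : ℝ) • y n t‖ ≤ K)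
    (h2 : ∀ (γ : ℕ → Bool) n, ∃ w : StrongDual ℝ Y, ‖w‖ ≤ C ∧
      ∀ m ≤ n, 1 / 2 ≤ w (y m fun i => γ i)) : False := by
  have h3 : ∀ γ : ℕ → Bool, ∃ w : StrongDual ℝ Y, ‖w‖ ≤ C ∧ ∀ m, 1 / 2 ≤ w (y m fun i => γ i) :=
    fun γ => by
    obtain ⟨w, hw⟩ := IsCompact.nonempty_iInter_of_sequence_nonempty_isCompact_isClosed
      (fun n => WeakDual.toStrongDual ⁻¹' closedBall 0 C ∩
        ⋂ m ≤ n, {w : WeakDual ℝ Y | 1 / 2 ≤ w (y m fun i => γ i)})
      (fun n w hw => ⟨hw.1, mem_iInter₂.2 fun m hm => mem_iInter₂.1 hw.2 m (by omega)⟩)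
      (fun n => let ⟨w, a, b⟩ := h2 γ n; ⟨w, mem_closedBall_zero_iff.2 a, mem_iInter₂.2 b⟩)
      ((WeakDual.isCompact_closedBall _ _).inter_right (isClosed_biInter fun m _ =>
        isClosed_le continuous_const (WeakDual.eval_continuous _)))
      fun n => (WeakDual.isClosed_closedBall _ _).inter (isClosed_biInter fun m _ =>
        isClosed_le continuous_const (WeakDual.eval_continuous _))
    exact ⟨w, mem_closedBall_zero_iff.1 (mem_iInter.1 hw 0).1,
      fun m => mem_iInter₂.1 (mem_iInter.1 hw m).2 m le_rfl⟩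
  choose w w1 w2 using h3
  choose u v e hv using fun γ => dec _ (w1 γ)
  have K0 : 0 ≤ K := (norm_nonneg _).trans (h1 0 0)
  have η0 : 0 < 1 / 4 / (K * ‖i1‖ + 1) := by positivity
  choose k hk using fun γ => (TopologicalSpace.denseRange_denseSeq U).exists_dist_lt (u γ) η0
  obtain ⟨j, hj⟩ : ∃ j, (k ⁻¹' {j}).Infinite := by
    by_contra! h
    have : Uncountable (ℕ → Bool) := by
      rw [← Cardinal.aleph0_lt_mk_iff]
      simpa using Cardinal.aleph0_lt_continuum
    exact not_countable_univ ((countable_iUnion fun j => (h j).countable).mono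
      fun γ _ => mem_iUnion.2 ⟨k γ, rfl⟩)
  set f := TopologicalSpace.denseSeq U j
  obtain ⟨M, hM⟩ := exists_nat_gt (4 * (K * ‖i1 f‖ + 2 * (‖i2‖ * K) * R) + 1)
  obtain ⟨G, g1, g2⟩ := hj.exists_subset_card_eq (M ^ 2)
  obtain ⟨n, hn⟩ := (eventually_all.2 fun p : G × G => show ∀ᶠ n in atTop,
    (fun i : Fin n => p.1.1 i) = (fun i : Fin n => p.2.1 i) → p.1 = p.2 by
      by_cases h : p.1 = p.2
      · exact .of_forall fun _ _ => h
      obtain ⟨i, hi⟩ := Function.ne_iff.1 (Subtype.coe_ne_coe.2 h)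
      filter_upwards [eventually_gt_atTop i] with n hn h using (hi (congrFun h ⟨i, hn⟩)).elim).exists
  set z : G → Y := fun γ => y n fun i => γ.1 i
  have h4 : ∀ a : G → SignType, ‖∑ γ, (a γ : ℝ) • z γ‖ ≤ K := fun a => by
    have inj : Function.Injective fun (γ : G) (i : Fin n) => γ.1 i := fun a b => hn (a, b)
    convert h1 n (Function.extend (fun (γ : G) (i : Fin n) => γ.1 i) a 0) using 2
    exact Fintype.sum_of_injective _ inj _ _ (fun t ht => by simp [Function.extend_apply' _ _ _ ht])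
      fun γ => by rw [inj.extend_apply]
  have h5 := orl G M (fun γ => (NormedSpace.inclusionInDoubleDual ℝ Y (z γ)).comp i2) (v ·)
    (‖i2‖ * K) (by simpa using g2) (fun a => ContinuousLinearMap.opNorm_le_bound _ (by positivity)
      fun x => by
        have := (i2 x).le_of_opNorm_le_of_le (i2.le_opNorm x)
          (h4 fun γ => bif a γ then 1 else -1)
        rw [map_sum, mul_right_comm] at this
        convert this using 2
        rw [_root_.sum_apply]
        refine Finset.sum_congr rfl fun γ _ => ?_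
        cases a γ <;> simp [NormedSpace.dual_def]) fun γ => hv γ
  have h6 : ∀ γ : G, 1 / 4 ≤ i1 f (z γ) + i2 (v γ) (z γ) := fun γ => by
    have a1 := w2 γ n
    have a2 : ‖z γ‖ ≤ K := by simpa [Pi.single_apply, apply_ite (SignType.cast : _ → ℝ)] using h4 (Pi.single γ 1)
    have a3 := (i1 (u γ - f)).le_of_opNorm_le_of_le (i1.le_opNorm _) a2
    have a4 := hk γ
    rw [g1 γ.2, dist_eq_norm, lt_div_iff₀ (by positivity)] at a4
    rw [e] at a1
    rw [map_sub] at a3
    have := (le_abs_self _).trans a3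
    simp only [_root_.add_apply, _root_.sub_apply] at a1 this
    nlinarith [norm_nonneg (u γ - f)]
  have h7 := Finset.sum_le_sum fun γ (_ : γ ∈ Finset.univ) => h6 γ
  have h8 := (le_abs_self _).trans ((i1 f).le_of_opNorm_le_of_le le_rfl (h4 1))
  simp only [Finset.sum_add_distrib, Finset.sum_const, Finset.card_univ, Fintype.card_coe, g2,
    nsmul_eq_mul] at h7
  simp only [Pi.one_apply, SignType.coe_one, one_smul, map_sum] at h8
  have R0 := (norm_nonneg _).trans (hv fun _ => true)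
  have : ∑ γ : G, i2 (v γ) (z γ) ≤ _ := h5
  have a1 : 0 ≤ K * ‖i1 f‖ := by positivity
  have a2 : 0 ≤ ‖i2‖ * K * R := by positivity
  push_cast at h7
  nlinarith

end Pool.Agent.H.MP_ec556a_an
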