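import Pool.Agent.H.MP_ec556a_an.A

set_option autoImplicit false

namespace Pool.Agent.H.MP_ec556a_an

open Set Filter Classical MeasureTheory
open scoped ENNReal

variable {μ : Measure ℝ}

lemma aeb (v : Lp ℝ ∞ μ) : ∀ᵐ x ∂μ, |v x| ≤ ‖v‖ := by
  filter_upwards [ae_le_eLpNormEssSup (f := v) (μ := μ)] with x hx
  rw [← eLpNorm_exponent_top] at hx
  exact_mod_cast ENNReal.toReal_mono (Lp.eLpNorm_ne_top v) hx

lemma orl {R : ℝ} (R0 : 0 < R) (ι : Type) [Fintype ι] (M : ℕ) (ρ : ι → StrongDual ℝ (Lp ℝ ∞ μ))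
    (v : ι → Lp ℝ ∞ μ) (K : ℝ) (hM : Fintype.card ι = M ^ 2)
    (h : ∀ a : ι → Bool, ‖∑ i, (bif a i then 1 else -1 : ℝ) • ρ i‖ ≤ K) (hv : ∀ i, ‖v i‖ ≤ R) :
    ∑ i, ρ i (v i) ≤ 2 * M * K * R := by
  rcases M.eq_zero_or_pos with rfl | M0
  · have := Fintype.card_eq_zero_iff.1 hM
    simp
  have s0 : 0 < M * R := by positivity
  set g : (ι → Bool) → ℝ → ℝ := fun a x =>
    (∏ j, (1 + Complex.I * (bif a j then 1 else -1) * (v j x / (M * R) : ℝ))).im
  have g1 : ∀ a, ∀ᵐ x ∂μ, ‖g a x‖ ≤ 2 := fun a => by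
    filter_upwards [eventually_all.2 fun j => aeb (v j)] with x hx
    refine riesz _ (r := 1 / M) (fun j => ?_) (by rw [hM]; push_cast; field_simp; rfl) a
    rw [abs_div, abs_of_pos s0, div_le_iff₀ s0]
    exact ((hx j).trans (hv j)).trans_eq (by field_simp)
  have g2 : ∀ a, MemLp (g a) ∞ μ := fun a => memLp_top_of_bound (by
    have := fun j => (Lp.aestronglyMeasurable (v j)).aemeasurable
    refine AEMeasurable.aestronglyMeasurable ?_
    fun_prop) 2 (g1 a)
  have g3 : ∀ a, ‖(g2 a).toLp‖ ≤ 2 := fun a => by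
    rw [Lp.norm_toLp, eLpNorm_exponent_top]
    exact ENNReal.toReal_le_of_le_ofReal two_pos.le (eLpNormEssSup_le_of_ae_bound (g1 a))
  have g4 : ∀ i, ∑ a : ι → Bool, (bif a i then 1 else -1 : ℝ) • (g2 a).toLp =
      (2 ^ Fintype.card ι / (M * R) : ℝ) • v i := fun i => Lp.ext <| by
    filter_upwards [Lp.coeFn_fun_finsetSum Finset.univ fun a : ι → Bool =>
      (bif a i then 1 else -1 : ℝ) • (g2 a).toLp, Lp.coeFn_smul (2 ^ Fintype.card ι / (M * R) : ℝ) (v i),
      eventually_all.2 fun a : ι → Bool => Lp.coeFn_smul (bif a i then 1 else -1 : ℝ) (g2 a).toLp,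
      eventually_all.2 fun a => (g2 a).coeFn_toLp] with x a1 a2 a3 a4
    simp only [a1, a2, a3, Pi.smul_apply, a4, smul_eq_mul, g]
    rw [riesz' (fun j => v j x / (M * R)) i]
    ring
  have g5 : 2 ^ Fintype.card ι / (M * R) * ∑ i, ρ i (v i) =
      ∑ a : ι → Bool, (∑ i, (bif a i then 1 else -1 : ℝ) • ρ i) (g2 a).toLp := by
    simp only [_root_.sum_apply, _root_.smul_apply, Finset.mul_sum]
    rw [Finset.sum_comm]
    exact Finset.sum_congr rfl fun i _ => by simpa using (congrArg (ρ i) (g4 i)).symm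
  have := g5.trans_le (Finset.sum_le_sum fun a _ => (le_abs_self _).trans
    (ContinuousLinearMap.le_of_opNorm_le_of_le _ (h a) (g3 a)))
  simp only [Finset.sum_const, Finset.card_univ, Fintype.card_pi, Fintype.card_bool,
    Finset.prod_const, nsmul_eq_mul, Nat.cast_pow, Nat.cast_ofNat] at this
  rw [div_mul_eq_mul_div, mul_div_assoc, mul_le_mul_iff_right₀ (by positivity), div_le_iff₀ s0] at this
  linarith

lemma split [NullSingletonClass μ] {E : Set ℝ} (h : μ E ≠ 0) :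
    ∃ t, μ (E ∩ Iio t) ≠ 0 ∧ μ (E ∩ Ici t) ≠ 0 := by
  by_contra! hc
  refine h (measure_mono_null (t := ((⋃ q : {q : ℚ // μ (E ∩ Iio q) = 0}, E ∩ Iio q.1) ∪
    ⋃ q : {q : ℚ // μ (E ∩ Iio q) ≠ 0}, E ∩ Ici q.1) ∪
    {x | ∀ q : ℚ, μ (E ∩ Iio q) = 0 ↔ q ≤ x}) (fun x hx => ?_) (measure_union_null
      (measure_union_null (measure_iUnion_null fun q => q.2) (measure_iUnion_null fun q =>
        hc _ q.2)) (Subsingleton.measure_zero (fun x hx y hy => ?_) _)))
  · by_contra! h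
    simp only [mem_union, mem_iUnion, not_or, not_exists, mem_inter_iff, hx, true_and, mem_Iio,
      mem_Ici, not_lt, not_le, Subtype.forall] at h
    exact h.2 fun q => ⟨h.1.1 q, fun e => by_contra fun e' => (h.1.2 q e').not_ge e⟩
  · exact le_antisymm (le_of_forall_rat_lt_imp_le fun q h => (hy q).1 ((hx q).2 h.le))
      (le_of_forall_rat_lt_imp_le fun q h => (hx q).1 ((hy q).2 h.le))

variable (hI : μ (Ioo 0 1) = 1)
include hI

lemma fin {F : Set ℝ} (h : F ⊆ Ioo 0 1) : μ F ≠ ∞ :=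
  ((measure_mono h).trans_lt (hI.trans_lt ENNReal.one_lt_top)).ne

noncomputable def ind (F : Set ℝ) : Lp ℝ 1 μ :=
  if h : MeasurableSet F ∧ F ⊆ Ioo 0 1 then indicatorConstLp 1 h.1 (fin hI h.2) 1 else 0

lemma ind_eq {F : Set ℝ} (h : MeasurableSet F) (h' : F ⊆ Ioo 0 1) :
    ind hI F = indicatorConstLp 1 h (fin hI h') 1 := dif_pos ⟨h, h'⟩

lemma ind_norm (F : Set ℝ) : ‖ind hI F‖ ≤ μ.real F := by
  unfold ind
  split_ifs
  · simp [norm_indicatorConstLp]
  · simp

def P (μ : Measure ℝ) (E : Set ℝ) : Prop := MeasurableSet E ∧ E ⊆ Ioo 0 1 ∧ μ E ≠ 0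

lemma hahn (φ : StrongDual ℝ (Lp ℝ 1 μ)) {E : Set ℝ} (hE : P μ E) (h : μ.real E ≤ φ (ind hI E)) :
    ∃ E' ⊆ E, P μ E' ∧ ∀ F ⊆ E', MeasurableSet F → μ.real F / 2 ≤ φ (ind hI F) := by
  have : IsFiniteMeasure (μ.restrict E) := ⟨by simpa [lt_top_iff_ne_top] using fin hI hE.2.1⟩
  have f1 : ∀ F, F ∩ E ⊆ Ioo 0 1 := fun F => inter_subset_right.trans hE.2.1
  have b : ∀ F, |φ (ind hI F) - μ.real F / 2| ≤ (‖φ‖ + 1) * μ.real F := fun F => by
    have := abs_le.1 (φ.le_of_opNorm_le_of_le le_rfl (ind_norm hI F))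
    have := measureReal_nonneg (μ := μ) (s := F)
    rw [abs_le]
    constructor <;> linarith
  set s : SignedMeasure ℝ := VectorMeasure.of_additive_of_le_measure
    (μ := (‖φ‖₊ + 1) • μ.restrict E)
    (fun F => if MeasurableSet F then φ (ind hI (F ∩ E)) - μ.real (F ∩ E) / 2 else 0) (fun F => by
      split_ifs with h
      · rw [← ofReal_norm, Measure.smul_apply, Measure.restrict_apply h,
          ← ofReal_measureReal (fin hI (f1 F)), ENNReal.smul_def, smul_eq_mul,
          ENNReal.coe_nnreal_eq, ← ENNReal.ofReal_mul (by positivity)]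
        exact ENNReal.ofReal_le_ofReal (b _)
      · simp) (fun a b ha hb ab => by
      have d := ab.mono (inter_subset_left (t := E)) (inter_subset_left (t := E))
      rw [if_pos ha, if_pos hb, if_pos (ha.union hb), union_inter_distrib_right, measureReal_union d
        (hb.inter hE.1) (fin hI (f1 a)) (fin hI (f1 b)), ind_eq hI (ha.inter hE.1) (f1 a),
        ind_eq hI (hb.inter hE.1) (f1 b), ind_eq hI ((ha.inter hE.1).union (hb.inter hE.1))
          (union_subset (f1 a) (f1 b)), indicatorConstLp_disjoint_union (ha.inter hE.1)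
          (hb.inter hE.1) (fin hI (f1 a)) (fin hI (f1 b)) d, map_add]
      ring) fun F h => if_neg h
  have hs : ∀ F, MeasurableSet F → s F = φ (ind hI (F ∩ E)) - μ.real (F ∩ E) / 2 :=
    fun F h => if_pos h
  obtain ⟨i, i0, i1, i2⟩ := s.exists_compl_positive_negative
  refine ⟨i ∩ E, inter_subset_right, ⟨i0.inter hE.1, f1 i, fun e => ?_⟩, fun F hF h => ?_⟩
  · have a1 := VectorMeasure.subset_le_of_restrict_le_restrict _ _ i0.compl i2 Subset.rfl
    have a2 := s.of_union disjoint_compl_right i0 i0.compl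
    have a3 := (le_abs_self _).trans (b (i ∩ E))
    have a4 : 0 < μ.real E := ENNReal.toReal_pos hE.2.2 (fin hI hE.2.1)
    rw [union_compl_self, hs _ .univ, hs _ i0, univ_inter] at a2
    rw [(measureReal_eq_zero_iff (fin hI (f1 i))).2 e] at a2 a3
    simp only [_root_.zero_apply] at a1
    linarith
  · have := VectorMeasure.subset_le_of_restrict_le_restrict _ _ i0 i1 (hF.trans inter_subset_left)
    rw [hs _ h, inter_eq_left.2 (hF.trans inter_subset_right)] at this
    simpa using this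

end Pool.Agent.H.MP_ec556a_an
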