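import Pool.Agent.H.MP_ec556a_an.B

set_option autoImplicit false

namespace Pool.Agent.H.MP_ec556a_an

open Set Filter Classical MeasureTheory Function
open scoped ENNReal

noncomputable def S (μ : Measure ℝ) : Submodule ℝ (ℝ →ₘ[μ] ℝ) :=
  Lp.LpSubmodule ℝ ℝ 1 μ ⊔ Lp.LpSubmodule ℝ ℝ ∞ μ

noncomputable def N (μ : Measure ℝ) (f : ℝ →ₘ[μ] ℝ) : ℝ :=
  sInf {r | ∃ (u : Lp ℝ 1 μ) (v : Lp ℝ ∞ μ), f = u.1 + v.1 ∧ r = ‖u‖ + ‖v‖}

variable {μ : Measure ℝ}

lemma ne (f : S μ) :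
    {r | ∃ (u : Lp ℝ 1 μ) (v : Lp ℝ ∞ μ), f = u.1 + v.1 ∧ r = ‖u‖ + ‖v‖}.Nonempty :=
  let ⟨u, a, v, b, e⟩ := Submodule.mem_sup.1 f.2
  ⟨_, ⟨u, a⟩, ⟨v, b⟩, e.symm, rfl⟩

lemma N_le {f : ℝ →ₘ[μ] ℝ} (u : Lp ℝ 1 μ) (v : Lp ℝ ∞ μ) (h : f = u.1 + v.1) : N μ f ≤ ‖u‖ + ‖v‖ :=
  csInf_le ⟨0, fun _ ⟨_, _, _, e⟩ => e ▸ by positivity⟩ ⟨u, v, h, rfl⟩

noncomputable def j1 : Lp ℝ 1 μ →ₗ[ℝ] S μ :=
  ⟨⟨fun u => ⟨u.1, Submodule.mem_sup_left u.2⟩, fun _ _ => rfl⟩, fun _ _ => rfl⟩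

noncomputable def j2 : Lp ℝ ∞ μ →ₗ[ℝ] S μ :=
  ⟨⟨fun u => ⟨u.1, Submodule.mem_sup_right u.2⟩, fun _ _ => rfl⟩, fun _ _ => rfl⟩

variable (hI : μ (Ioo 0 1) = 1)
include hI

lemma int (f : S μ) : IntegrableOn f.1 (Ioo 0 1) μ ∧ ∫ x in Ioo 0 1, |f.1 x| ∂μ ≤ N μ f := by
  have : IsFiniteMeasure (μ.restrict (Ioo 0 1)) := ⟨by simp [hI]⟩
  have h : ∀ (u : Lp ℝ 1 μ) (v : Lp ℝ ∞ μ), f = u.1 + v.1 → IntegrableOn f.1 (Ioo 0 1) μ :=
    fun u v e => e ▸ ((L1.integrable_coeFn u).integrableOn.add (((Lp.memLp v).restrict _).integrable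
      le_top)).congr (ae_restrict_of_ae (AEEqFun.coeFn_add _ _).symm)
  obtain ⟨-, u, v, e, -⟩ := ne f
  refine ⟨h u v e, le_csInf (ne f) fun _ ⟨u, v, e, e'⟩ => ?_⟩
  have iu := (L1.integrable_coeFn u).norm
  refine (integral_mono_ae (g := fun x => ‖u x‖ + ‖v‖) (h u v e).abs
    (iu.integrableOn.add (integrable_const _)) (ae_restrict_of_ae ?_)).trans ?_
  · filter_upwards [aeb v, AEEqFun.coeFn_add u.1 v.1] with x a b
    rw [e, b]
    exact (abs_add_le _ _).trans (add_le_add_right a _)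
  · rw [integral_add iu.integrableOn (integrable_const _), e', L1.norm_eq_integral_norm]
    simpa [Measure.real, hI] using setIntegral_le_integral iu (.of_forall fun _ => norm_nonneg _)

noncomputable def B {E : Set ℝ} (h : E ⊆ Ioo 0 1) : S μ →ₗ[ℝ] ℝ where
  toFun f := ∫ x in E, f.1 x ∂μ
  map_add' f g := (integral_congr_ae (ae_restrict_of_ae (AEEqFun.coeFn_add _ _))).trans
    (integral_add ((int hI f).1.mono_set h) ((int hI g).1.mono_set h))
  map_smul' c f := (integral_congr_ae (ae_restrict_of_ae (AEEqFun.coeFn_smul _ _))).trans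
    (integral_smul c _)

lemma B_le {T : Type} [Fintype T] {E : T → Set ℝ} (h : ∀ t, P μ (E t)) (d : Pairwise (Disjoint on E))
    (a : T → SignType) (f : S μ) : ∑ t, (a t : ℝ) * B hI (h t).2.1 f ≤ N μ f := by
  have i := (int hI f).1.abs
  refine (Finset.sum_le_sum (g := fun t => ∫ x in E t, |f.1 x| ∂μ) fun t _ => ?_).trans ?_
  · have : |B hI (h t).2.1 f| ≤ _ := abs_integral_le_integral_abs
    rw [abs_le] at this
    cases a t <;> simp <;> linarith
  · rw [← integral_iUnion_fintype (fun t => (h t).1) d fun t => IntegrableOn.mono_set i (h t).2.1]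
    exact (setIntegral_mono_set i (.of_forall fun _ => abs_nonneg _)
      (iUnion_subset fun t => (h t).2.1).eventuallyLE).trans (int hI f).2

lemma B_ind {E : Set ℝ} (h : P μ E) : B hI h.2.1 (j1 (ind hI E)) = μ.real E := by
  rw [ind_eq hI h.1 h.2.1]
  refine (integral_congr_ae (ae_restrict_of_ae (indicatorConstLp_coeFn (p := 1) (hs := h.1)
    (hμs := fin hI h.2.1)))).trans ?_
  simp [integral_indicator h.1]

lemma main [NullSingletonClass μ] [SFinite μ] {Y : Type*} [NormedAddCommGroup Y] [NormedSpace ℝ Y]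
    (T : S μ ≃ₗ[ℝ] StrongDual ℝ Y) {c C : ℝ} (hc : 0 < c)
    (h : ∀ f : S μ, c * N μ f ≤ ‖T f‖ ∧ ‖T f‖ ≤ C * N μ f) : False := by
  have h0 : ∀ (f : S μ) r, N μ f ≤ r → ‖T f‖ ≤ |C| * r := fun f r e => (h f).2.trans (mul_le_mul
    (le_abs_self C) e (Real.sInf_nonneg fun _ ⟨_, _, _, e⟩ => e ▸ by positivity) (abs_nonneg C))
  set i1 := (T.toLinearMap.comp j1).mkContinuous |C| fun u => h0 _ _
    ((N_le u 0 (add_zero _).symm).trans_eq (by simp))
  set i2 := (T.toLinearMap.comp j2).mkContinuous |C| fun v => h0 _ _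
    ((N_le 0 v (zero_add _).symm).trans_eq (by simp))
  have hw : ∀ w, N μ (T.symm w) ≤ c⁻¹ * ‖w‖ := fun w => by
    simpa [le_inv_mul_iff₀ hc] using (h (T.symm w)).1
  have pos : ∀ E, P μ E → 0 < μ.real E := fun E h => ENNReal.toReal_pos h.2.2 (fin hI h.2.1)
  have step : ∀ n (s : {E : (Fin n → Bool) → Set ℝ // (∀ t, P μ (E t)) ∧ Pairwise (Disjoint on E)}),
      ∃ (s' : {E : (Fin (n + 1) → Bool) → Set ℝ // (∀ t, P μ (E t)) ∧ Pairwise (Disjoint on E)})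
        (y : (Fin n → Bool) → Y), (∀ a : _ → SignType, ‖∑ t, (a t : ℝ) • y t‖ ≤ c⁻¹ + 1) ∧
        ∀ t, s'.1 t ⊆ s.1 (Fin.init t) ∧ ∀ F ⊆ s'.1 t, MeasurableSet F →
          μ.real F / 2 ≤ i1 (ind hI F) (y (Fin.init t)) := fun n ⟨E, p, d⟩ => by
    obtain ⟨y, y1, y2⟩ := lr (fun t => (μ.real (E t))⁻¹ • i1 (ind hI (E t)))
      (fun t => (B hI (p t).2.1).comp T.symm.toLinearMap) (inv_pos.2 hc).le (fun t => by
        simp [i1, B_ind hI (p t), (pos _ (p t)).ne']) fun a w => (B_le hI p d a _).trans (hw w)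
    choose E' e1 e2 e3 using fun t => hahn hI
      ((NormedSpace.inclusionInDoubleDual ℝ Y (y t)).comp i1) (p t) (by
        simpa [one_le_inv_mul₀ (pos _ (p t))] using y2 t)
    choose x x0 x1 using fun t => split (e2 t).2.2
    refine ⟨⟨fun t => E' (Fin.init t) ∩ bif t (Fin.last n) then Ici (x (Fin.init t)) else
      Iio (x (Fin.init t)), fun t => ⟨(e2 _).1.inter ?_, inter_subset_left.trans (e2 _).2.1, ?_⟩,
      fun t t' ht => ?_⟩, y, y1, fun t => ⟨inter_subset_left.trans (e1 _), fun F hF =>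
        e3 _ F (hF.trans inter_subset_left)⟩⟩
    · cases t (Fin.last n) <;> simp
    · beta_reduce
      cases t (Fin.last n)
      exacts [x0 _, x1 _]
    · by_cases e : Fin.init t = Fin.init t'
      · refine Disjoint.mono inter_subset_right inter_subset_right ?_
        have : t (Fin.last n) ≠ t' (Fin.last n) := fun e' => ht (by
          rw [← Fin.snoc_init_self t, e, e', Fin.snoc_init_self])
        rw [e]
        revert this
        cases t (Fin.last n) <;> cases t' (Fin.last n) <;> simp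
      · exact (d e).mono (inter_subset_left.trans (e1 _)) (inter_subset_left.trans (e1 _))
  choose f g y1 y2 using step
  set E : ∀ n, {E : (Fin n → Bool) → Set ℝ // (∀ t, P μ (E t)) ∧ Pairwise (Disjoint on E)} :=
    fun n => n.rec ⟨fun _ => Ioo 0 1, fun _ => ⟨measurableSet_Ioo, Subset.rfl, by simp [hI]⟩,
      Subsingleton.pairwise⟩ f
  have : Fact ((1 : ℝ≥0∞) ≠ ∞) := ⟨ENNReal.one_ne_top⟩
  refine abs i1 i2 (C := |C|) (R := c⁻¹ * |C| + 1) (fun w hw' => ?_) (orl (by positivity))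
    (fun n => g n (E n)) (fun n => y1 n _) fun γ n => ?_
  · obtain ⟨_, ⟨u, v, e, rfl⟩, l⟩ := exists_lt_of_csInf_lt (ne (T.symm w)) (lt_add_one _)
    refine ⟨u, v, ?_, ?_⟩
    · exact (T.symm_apply_eq.1 (Subtype.ext e : _ = j1 u + j2 v)).trans (map_add _ _ _)
    · have := (hw w).trans (mul_le_mul_of_nonneg_left hw' (inv_pos.2 hc).le)
      have l : ‖u‖ + ‖v‖ < N μ (T.symm w) + 1 := l
      linarith [norm_nonneg u]
  · have p := (E (n + 1)).2.1 fun i => γ i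
    refine ⟨(μ.real ((E (n + 1)).1 fun i => γ i))⁻¹ • i1 (ind hI ((E (n + 1)).1 fun i => γ i)),
      ?_, fun m hm => ?_⟩
    · rw [norm_smul, Real.norm_of_nonneg (inv_pos.2 (pos _ p)).le, inv_mul_le_iff₀ (pos _ p),
        mul_comm]
      exact h0 _ _ ((N_le _ 0 (add_zero _).symm).trans (by simpa using ind_norm hI _))
    · have : ((E (n + 1)).1 fun i => γ i) ⊆ (E (m + 1)).1 fun i => γ i :=
        antitone_nat_of_succ_le (f := fun n => (E (n + 1)).1 fun i => γ i)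
          (fun n => (y2 _ _ _).1) hm
      have := (y2 m _ _).2 _ this p.1
      rw [_root_.smul_apply, smul_eq_mul, le_inv_mul_iff₀ (pos _ p), mul_one_div]
      exact this

end Pool.Agent.H.MP_ec556a_an
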